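import Pool.Agent.U503.EA.Stm

/-!
# Project EA, package EQ (helper94): the load of an equitable partition of a larger set
-/

set_option autoImplicit false

namespace Pool.Agent.U94.EA.EQ

open Finset Pool.Agent.U503.VS

theorem t_EQ : Pool.Agent.U503.EA.S_EQ := by
  intro p w k b x r hp hw hbal hbx hx hb hsum
  have hp' : (5 : ℝ) ≤ p := by exact_mod_cast hp
  have hp0 : (0 : ℝ) < p := by linarith
  have hpw : (0 : ℝ) < (p : ℝ) ^ w := by positivity
  by_cases hk2 : k ≤ 2
  · calc ∑ j, (2 * (r j) : ℝ) / (p : ℝ) ^ (r j) ≤ ∑ _j : Fin k, (2 / 5 : ℝ) :=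
          sum_le_sum fun j _ => load_one hp (r j)
      _ = k * (2 / 5) := by rw [sum_const, card_univ, Fintype.card_fin, nsmul_eq_mul]
      _ ≤ 2 * (2 / 5) := by
          have : (k : ℝ) ≤ 2 := by exact_mod_cast hk2
          linarith
      _ ≤ 1 := by norm_num
  push Not at hk2
  have hge : ∀ j, w ≤ r j := by
    intro j
    by_contra h
    push Not at h
    have h1 : ∑ i, r i ≤ ∑ _i : Fin k, w := sum_le_sum fun i _ => by
      have := hbal i j
      omega
    rw [sum_const, card_univ, Fintype.card_fin, smul_eq_mul] at h1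
    omega
  set c := (univ.filter (fun j : Fin k => w + 1 ≤ r j)).card with hc
  have hc2 : 2 ≤ c := by
    by_cases h : ∃ j, r j = w
    · obtain ⟨j0, h0⟩ := h
      have h1 : ∑ i, r i ≤ ∑ i : Fin k, (w + if w + 1 ≤ r i then 1 else 0) := sum_le_sum fun i _ => by
        have := hbal i j0
        split_ifs <;> omega
      rw [sum_add_distrib, sum_const, card_univ, Fintype.card_fin, smul_eq_mul, ← card_filter] at h1
      omega
    · push Not at h
      have h1 : (univ.filter (fun j : Fin k => w + 1 ≤ r j)) = univ := by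
        rw [filter_true_of_mem]
        intro j _
        have := hge j
        have := h j
        omega
      rw [hc, h1, card_univ, Fintype.card_fin]
      omega
  set A : ℝ := (2 * w : ℝ) / (p : ℝ) ^ w with hA
  set B : ℝ := (2 * (w + 1 : ℕ) : ℝ) / (p : ℝ) ^ (w + 1) with hB
  have hBA : B ≤ A := load_anti hp hw (w + 1) (by omega)
  have hterm : ∀ j ∈ (univ : Finset (Fin k)), (2 * (r j) : ℝ) / (p : ℝ) ^ (r j) ≤
      A - if w + 1 ≤ r j then A - B else 0 := by
    intro j _
    split_ifs with h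
    · rw [sub_sub_cancel]
      exact load_anti hp (by omega) (r j) h
    · rw [sub_zero]
      exact load_anti hp hw (r j) (hge j)
  refine (sum_le_sum hterm).trans ?_
  rw [sum_sub_distrib, sum_const, card_univ, Fintype.card_fin, nsmul_eq_mul, ← sum_filter, sum_const,
    nsmul_eq_mul, ← hc]
  have hc2' : (2 : ℝ) ≤ c := by exact_mod_cast hc2
  have h1 : (k : ℝ) * A - c * (A - B) ≤ k * A - 2 * (A - B) := by
    have := mul_le_mul_of_nonneg_right hc2' (sub_nonneg.2 hBA)
    linarith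
  refine h1.trans ?_
  have hw' : (1 : ℝ) ≤ w := by exact_mod_cast hw
  have hB' : B ≤ (2 * (w + 1) / 5 : ℝ) / (p : ℝ) ^ w := by
    rw [hB, pow_succ, div_le_div_iff₀ (by positivity) hpw]
    push_cast
    have : (2 * ((w : ℝ) + 1)) * (p : ℝ) ^ w * 5 ≤ (2 * ((w : ℝ) + 1)) * (p : ℝ) ^ w * p :=
      mul_le_mul_of_nonneg_left hp' (by positivity)
    linarith
  have e1 : (k : ℝ) * A - 2 * (A - B) = ((k - 2) * (2 * w)) / (p : ℝ) ^ w + 2 * B := by
    rw [hA]
    ring
  rw [e1]
  have e2 : ((b : ℝ)) + x = k * w := by exact_mod_cast hbx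
  have e3 : (x : ℝ) + 1 ≤ w := by exact_mod_cast hx
  have e4 : 2 * (b : ℝ) + 1 ≤ (p : ℝ) ^ w := by exact_mod_cast hb
  calc ((k : ℝ) - 2) * (2 * w) / (p : ℝ) ^ w + 2 * B ≤
        ((k : ℝ) - 2) * (2 * w) / (p : ℝ) ^ w + 2 * ((2 * (w + 1) / 5 : ℝ) / (p : ℝ) ^ w) := by linarith
    _ = (((k : ℝ) - 2) * (2 * w) + 2 * (2 * (w + 1) / 5)) / (p : ℝ) ^ w := by ring
    _ ≤ 1 := by
        rw [div_le_one hpw]
        nlinarith

end Pool.Agent.U94.EA.EQ
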